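import Pool.Agent.Q1.SL.OverC

set_option autoImplicit false

/-!
# Curves given by iterated linear differential equations of bounded complexity

Let `X` be an integral closed subvariety of the complex projective `n`-space, given by finitely many
forms `FF` which span a prime ideal. We consider curves `f : Ω → X` on arbitrary domains `Ω` of the
plane (`Ω` open and connected, for instance `Ω = ℂ`), with homogeneous coordinates given by `s`
iterated linear differential equations with matrices of size `r` and polynomials of degree at most
`e` (`DVec Ω s r e f`): there are invertible matrices `X_1(z), ..., X_s(z)` of size `r` of analytic
functions on `Ω` such that the entries of `X_l'(z) X_l(z)⁻¹` are values of polynomials with constant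
coefficients, of degree at most `e` in each variable, at the entries of `X_i(z)`, `X_i(z)⁻¹`, `i < l`,
and the coordinates of `f(z)` are values of such polynomials at the entries of all these matrices.
Examples of such functions are polynomials, exponential polynomials, `exp (exp z)`, Airy functions,
the solutions of all linear differential equations with polynomial coefficients and leading
coefficient one, and of those with coefficients which are such functions again.

The following are equivalent:

(1) `X` is not uniruled (over no extension field of `ℂ` there is a nonconstant rational curve on `X`
through a point which is generic over `ℂ`);

(2) for every `d` there is ONE proper closed subset `X ∩ {G = 0}` of `X` which contains all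
nonconstant rational curves of degree at most `d` on `X`;

(3) for all `s`, `r`, `e` there is ONE proper closed subset `X ∩ {G = 0}` of `X` which contains all
nonconstant curves on `X`, on all domains `Ω`, given by `s` iterated linear differential equations
with matrices of size `r` and polynomials of degree at most `e`.

So a variety which is not uniruled, for instance a variety of general type, is pseudo-hyperbolic for
these curves, although it can contain infinitely many rational curves, the union of which may be
Zariski-dense (K3 surfaces).
-/

namespace Pool.Agent.Results.MP_2a5ae2_ag.BoundedComplexityLocus

open MvPolynomial Pool.Agent.H533R3.SL Pool.Agent.Q1.SL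

theorem result {n : ℕ} (FF : Finset (MvPolynomial (Fin (n + 1)) ℂ))
    (hhom : ∀ F ∈ FF, ∃ e, F.IsHomogeneous e)
    (hprime : (Ideal.span (FF : Set (MvPolynomial (Fin (n + 1)) ℂ))).IsPrime) :
    List.TFAE [¬ Uniruled (Ideal.span (FF : Set (MvPolynomial (Fin (n + 1)) ℂ))),
      RatDeg (Ideal.span (FF : Set (MvPolynomial (Fin (n + 1)) ℂ))),
      OdeDeg (Ideal.span (FF : Set (MvPolynomial (Fin (n + 1)) ℂ)))] :=
  ode_tfae FF hhom hprime

end Pool.Agent.Results.MP_2a5ae2_ag.BoundedComplexityLocus
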