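import Pool.Agent.Q309.DU.Loc

set_option autoImplicit false

/-!
# Entire curves given by `q`-difference equations of bounded complexity

Let `X` be an integral closed subvariety of the complex projective `n`-space, given by forms `FF`
which span a prime ideal. We consider holomorphic maps `f : ℂ → X` with meromorphic homogeneous
coordinates `h_j` each of which satisfies a nontrivial linear functional equation
`∑ P_k (t z) h_j (σ^k z) = 0`, `k ≤ r`, with polynomials `P_k` of degree at most `e`
(`LinCurve r e σ t f`). Here `σ` is a nonconstant entire function and `t` is an entire function with
`t (σ z) = α t z + β` for some constants `α`, `β`. Examples are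

* `q`-difference equations with polynomial coefficients: `σ z = q z`, `t z = z`;
* difference equations with polynomial coefficients: `σ z = z + b`, `t z = z`;
* difference equations the coefficients of which are polynomials in `exp (c z)`.

The following are equivalent:

(1) `X` is not uniruled;

(2) for every `d` there is one proper closed subset `X ∩ {G = 0}` of `X` which contains all
nonconstant rational curves of degree at most `d` on `X`;

(3) for all `r`, `e` there is ONE proper closed subset `X ∩ {G = 0}` of `X` which contains all
nonconstant entire curves in `X` given by `q`-difference equations of order at most `r` with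
polynomial coefficients of degree at most `e`, for ALL complex numbers `q` which are not zero and
not roots of unity (`QDeg`);

(4) for all `r`, `e` there are one proper closed subset `X ∩ {G = 0}` of `X` and a number `B` such
that for all `σ`, `t` as above with `t ∘ σ^k ≠ t` for `0 < k ≤ B`, all entire curves `f` in `X` given
by equations of order at most `r` and degree at most `e` are contained in `G = 0` or satisfy
`f ∘ σ^k = f` for some `0 < k ≤ B` (`FDeg`). For difference equations (`σ z = z + b`, `b ≠ 0`) this
means that `f` has the period `k b`.

So a variety which is not uniruled, for instance a variety of general type, is pseudo-hyperbolic for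
the curves in (3).
-/

namespace Pool.Agent.Results.MP_2a5ae2_ag.QDifferenceLocus

open MvPolynomial Pool.Agent.H533R3.SL Pool.Agent.Q1.SL Pool.Agent.Q309.DU

theorem result {n : ℕ} (FF : Set (MvPolynomial (Fin (n + 1)) ℂ))
    (hhom : ∀ F ∈ FF, ∃ e, F.IsHomogeneous e) (hprime : (Ideal.span FF).IsPrime) :
    List.TFAE [¬ Uniruled (Ideal.span FF), RatDeg (Ideal.span FF), QDeg (Ideal.span FF),
      FDeg (Ideal.span FF)] :=
  q_tfae FF hhom hprime

end Pool.Agent.Results.MP_2a5ae2_ag.QDifferenceLocus
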