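import Pool.Agent.Q139.EG.Main

set_option autoImplicit false

/-!
# Entire curves given by iterated linear differential equations with small coefficients

Let `X` be an integral closed subvariety of the complex projective `n`-space, given by finitely many
forms `FF` which span a prime ideal. We consider curves the homogeneous coordinates of which are
given by `s` iterated linear differential equations with matrices of size `r` and polynomials of
degree at most `e` with coefficients in a ring `M` of functions (`MVec Ω M s r e f`): there are
invertible matrices `X_1(z), ..., X_s(z)` of size `r` of analytic functions on `Ω` such that the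
entries of `X_l'(z) X_l(z)⁻¹` are polynomials with coefficients in `M`, of degree at most `e` in each
variable, in the entries of `X_i(z)`, `X_i(z)⁻¹`, `i < l`, and the coordinates of `f(z)` are such
polynomials in the entries of all these matrices. (For `s = 1` the coordinates of `f` are
polynomials in solutions of a linear system `X' = A X` with `A` a matrix with entries in `M`.)

The following are equivalent:

(1) `X` is not uniruled (over no extension field of `ℂ` there is a nonconstant rational curve on `X`
through a point which is generic over `ℂ`);

(2) for every `d` there is ONE proper closed subset `X ∩ {G = 0}` of `X` which contains all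
nonconstant rational curves of degree at most `d` on `X`;

(3) for all `s`, `r`, `e` there are `d` and ONE proper closed subset `X ∩ {G = 0}` of `X` such that
for all domains `Ω` and ALL rings `M` of analytic functions on `Ω` which contain the constants and
are closed under differentiation, every curve `f : Ω → X` with `MVec Ω M s r e f` lies in
`X ∩ {G = 0}` or is algebraic of degree at most `d` over `M`;

(4) for all `s`, `r`, `e` there is ONE proper closed subset `X ∩ {G = 0}` of `X` which contains all
nonconstant entire curves `f : ℂ → X` which are given by `s` iterated linear differential equations
as above with SMALL coefficients: meromorphic functions `a` on the plane such that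
`T(r, a^(k)) = o(T(r, f))` for all `k` (`SmallCurve s r e f`);

(5) for all `s`, `r`, `e` there are `N` and ONE proper closed subset `X ∩ {G = 0}` of `X` such that
for all subgroups `L` of the plane (for instance the lattices, or the multiples of one period) every
entire curve `f : ℂ → X` which is given by `s` iterated linear differential equations as above with
arbitrary meromorphic coefficients with the periods `L` (`PerCurve L s r e f`) lies in
`X ∩ {G = 0}` or is invariant under a subgroup of index at most `N` of `L`.
-/

namespace Pool.Agent.Results.MP_2a5ae2_ag.SmallCoefficients

open MvPolynomial Pool.Agent.H533R3.SL Pool.Agent.Q1.SL Pool.Agent.Q139.EG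

theorem result {n : ℕ} (FF : Finset (MvPolynomial (Fin (n + 1)) ℂ))
    (hhom : ∀ F ∈ FF, ∃ e, F.IsHomogeneous e)
    (hprime : (Ideal.span (FF : Set (MvPolynomial (Fin (n + 1)) ℂ))).IsPrime) :
    List.TFAE [¬ Uniruled (Ideal.span (FF : Set (MvPolynomial (Fin (n + 1)) ℂ))),
      RatDeg (Ideal.span (FF : Set (MvPolynomial (Fin (n + 1)) ℂ))),
      GenDeg (FF : Set (MvPolynomial (Fin (n + 1)) ℂ)),
      SmallDeg (FF : Set (MvPolynomial (Fin (n + 1)) ℂ)),
      PerDeg (FF : Set (MvPolynomial (Fin (n + 1)) ℂ))] :=
  gen_tfae FF hhom hprime

end Pool.Agent.Results.MP_2a5ae2_ag.SmallCoefficients
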