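import Pool.Agent.Q1.SL.Unif

set_option autoImplicit false

/-!
# Entire curves of bounded complexity force rational curves of bounded degree

We consider curves `f : Ω → X` on arbitrary domains `Ω` of the plane (for instance entire curves,
`Ω = ℂ`), on closed subsets `X` of the complex projective `n`-space, with homogeneous coordinates
given by `s` iterated linear differential equations with matrices of size `r` and polynomials of
degree at most `e` (`DVec Ω s r e f`): there are invertible matrices `X_1(z), ..., X_s(z)` of size
`r` of analytic functions on `Ω` such that the entries of `X_l'(z) X_l(z)⁻¹` are values of
polynomials with constant coefficients, of degree at most `e` in each variable, at the entries of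
`X_i(z)`, `X_i(z)⁻¹`, `i < l`, and the coordinates of `f(z)` are values of such polynomials at the
entries of all these matrices.

For all `n`, `D`, `s`, `r`, `e` there is a number `d` such that for ALL closed subsets `X` of
projective `n`-space defined by forms of degree at most `D` and all forms `G` of degree at most `D`:
if there is a nonconstant curve `f : Ω → X` as above, on some domain `Ω`, whose image is not
contained in `G = 0`, then there is a nonconstant rational curve of degree at most `d` on `X` which
is not contained in `G = 0`.

For `G = 1`: if `X` contains no rational curve of degree at most `d`, where `d` depends only on the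
dimension of the space, the degrees of the equations and the complexity of the curves, then all
entire curves of this complexity in `X` are constant.
-/

namespace Pool.Agent.Results.MP_2a5ae2_ag.UniformRationalCurves

open MvPolynomial Pool.Agent.Q1.SL

theorem result (n D s r e : ℕ) : ∃ d : ℕ,
    ∀ (S : Set (MvPolynomial (Fin (n + 1)) ℂ)) (G : MvPolynomial (Fin (n + 1)) ℂ),
      (∀ F ∈ S, ∃ e, e ≤ D ∧ F.IsHomogeneous e) → (∃ e, e ≤ D ∧ G.IsHomogeneous e) →
        RatIn S G d → OdeIn S G s r e :=
  ode_uniform n D s r e

end Pool.Agent.Results.MP_2a5ae2_ag.UniformRationalCurves
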